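import Pool.Agent.H87.RN.Uniq

/-! PROJECT RN (S11118): price form of optimality. -/

set_option autoImplicit false

namespace H87RN

open Finset

/-- the squared-distance cost of a translate is the price cost plus a constant -/
theorem cost_eq_price {ι κ : Type*} [Fintype ι] (a : ι → E2) (b : κ → E2) (t : E2)
    (π : ι ↪ κ) :
    ∑ i, ‖a i - (b (π i) + t)‖ ^ 2 =
      ∑ i, (‖a i - b (π i)‖ ^ 2 + 2 * inner ℝ (b (π i)) t)
        + ∑ i, (‖t‖ ^ 2 - 2 * inner ℝ (a i) t) := by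
  rw [← Finset.sum_add_distrib]
  refine Finset.sum_congr rfl fun i _ => ?_
  have h1 : a i - (b (π i) + t) = (a i - b (π i)) - t := by abel
  rw [h1, norm_sub_sq_real, inner_sub_left]
  ring

/-- optimal for the translate by `t` iff optimal for the prices `2 ⟨b, t⟩` -/
theorem opt_iff_price {ι κ : Type*} [Fintype ι] (a : ι → E2) (b : κ → E2) (t : E2)
    (π : ι ↪ κ) :
    (∀ σ : ι ↪ κ, ∑ i, ‖a i - (b (π i) + t)‖ ^ 2 ≤ ∑ i, ‖a i - (b (σ i) + t)‖ ^ 2) ↔
      (∀ σ : ι ↪ κ, ∑ i, (‖a i - b (π i)‖ ^ 2 + 2 * inner ℝ (b (π i)) t) ≤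
        ∑ i, (‖a i - b (σ i)‖ ^ 2 + 2 * inner ℝ (b (σ i)) t)) := by
  refine forall_congr' fun σ => ?_
  rw [cost_eq_price, cost_eq_price]
  exact add_le_add_iff_right _

/-- `manyRanges_of_fintype` in price form; the spots are indexed by an arbitrary finite type. -/
theorem manyRanges_of_price {ι κ τ : Type*} [Fintype ι] [Fintype κ] [Fintype τ]
    (a : ι → E2) (b : κ → E2) (t : τ → E2) (S : τ → Finset κ)
    (hS : ∀ s : τ, ∀ π : ι ↪ κ,
      (∀ σ : ι ↪ κ, ∑ i, (‖a i - b (π i)‖ ^ 2 + 2 * inner ℝ (b (π i)) (t s)) ≤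
        ∑ i, (‖a i - b (σ i)‖ ^ 2 + 2 * inner ℝ (b (σ i)) (t s))) →
        Finset.univ.map π = S s)
    (hinj : Function.Injective S) (hcard : Fintype.card ι ≤ Fintype.card κ) :
    ManyRanges (Fintype.card ι) (Fintype.card κ) (Fintype.card τ) := by
  classical
  -- an optimal embedding at each spot
  have hne : Nonempty (ι ↪ κ) := Function.Embedding.nonempty_of_card_le hcard
  have hopt : ∀ s : τ, ∃ π : ι ↪ κ, ∀ σ : ι ↪ κ,
      ∑ i, (‖a i - b (π i)‖ ^ 2 + 2 * inner ℝ (b (π i)) (t s)) ≤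
        ∑ i, (‖a i - b (σ i)‖ ^ 2 + 2 * inner ℝ (b (σ i)) (t s)) := by
    intro s
    obtain ⟨π, -, hπ⟩ := Finset.exists_min_image (Finset.univ : Finset (ι ↪ κ))
      (fun σ => ∑ i, (‖a i - b (σ i)‖ ^ 2 + 2 * inner ℝ (b (σ i)) (t s))) Finset.univ_nonempty
    exact ⟨π, fun σ => hπ σ (Finset.mem_univ _)⟩
  have htinj : Function.Injective t := by
    intro s s' h
    obtain ⟨π, hπ⟩ := hopt s
    apply hinj
    rw [← hS s π hπ]
    apply hS s' π
    rw [← h]
    exact hπ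
  have h := manyRanges_of_fintype a b (Finset.univ.image t)
    (fun u => if h : ∃ s, t s = u then S h.choose else ∅) ?_ ?_
  · rwa [Finset.card_image_of_injective _ htinj, Finset.card_univ] at h
  · intro u hu π hπ
    simp only [Finset.mem_image, Finset.mem_univ, true_and] at hu
    rw [dif_pos hu]
    apply hS
    rw [← opt_iff_price]
    rw [hu.choose_spec]
    exact hπ
  · intro u hu v hv h
    simp only [Finset.coe_image, Finset.coe_univ, Set.image_univ, Set.mem_range] at hu hv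
    simp only [dif_pos hu, dif_pos hv] at h
    rw [← hu.choose_spec, ← hv.choose_spec, hinj h]

/-- a price instance with `card τ` spots, arbitrary finite index types (agents `ι`, items `κ`) -/
structure Inst (ι κ τ : Type) [Fintype ι] [Fintype κ] where
  /-- the agents (the points `A`) -/
  a : ι → E2
  /-- the items (the points `B`) -/
  b : κ → E2
  /-- the translations -/
  t : τ → E2
  /-- the set of used items -/
  S : τ → Finset κ
  inj : Function.Injective S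
  opt : ∀ (s : τ) (π : ι ↪ κ),
    (∀ σ : ι ↪ κ, ∑ i, (‖a i - b (π i)‖ ^ 2 + 2 * inner ℝ (b (π i)) (t s)) ≤
        ∑ i, (‖a i - b (σ i)‖ ^ 2 + 2 * inner ℝ (b (σ i)) (t s))) →
        Finset.univ.map π = S s

/-- final form: `S11118` from price instances whose number of spots beats every polynomial -/
theorem not_poly_of_inst (H : ∀ (C : ℝ) (d : ℕ), ∃ (ι κ τ : Type) (_ : Fintype ι) (_ : Fintype κ)
      (_ : Fintype τ), Nonempty (Inst ι κ τ) ∧ Fintype.card ι ≤ Fintype.card κ ∧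
      C * ((Fintype.card κ : ℝ) + 1) ^ d < (Fintype.card τ : ℝ)) :
    ¬ (∃ C : ℝ, ∃ d₁ d₂ : ℕ, ∀ m n : ℕ, m ≤ n →
      ∀ (A : Fin m → EuclideanSpace ℝ (Fin 2)) (B : Fin n → EuclideanSpace ℝ (Fin 2)),
        ((({π : Fin m ↪ Fin n | ∃ t : EuclideanSpace ℝ (Fin 2),
            ∀ σ : Fin m ↪ Fin n, σ ≠ π →
              ∑ i, ‖A i - (B (π i) + t)‖ ^ 2 < ∑ i, ‖A i - (B (σ i) + t)‖ ^ 2}
            : Set (Fin m ↪ Fin n)).ncard : ℕ) : ℝ)
          ≤ C * ((m : ℝ) + 1) ^ d₁ * ((n : ℝ) + 1) ^ d₂) := by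
  refine not_poly fun C d => ?_
  obtain ⟨ι, κ, τ, _, _, _, ⟨I⟩, hmn, hk⟩ := H C d
  exact ⟨_, _, _, hmn, manyRanges_of_price I.a I.b I.t I.S I.opt I.inj hmn, hk⟩

end H87RN
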