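import Mathlib

/-! PROJECT RN (MP_bd0985_co, S11118): the format-independent last step.
If at finitely many translations all optimal injections have the same range, and these ranges differ,
then a small generic motion of the points makes the optimal injections unique. -/

set_option autoImplicit false

namespace H87RN

open Finset

abbrev E2 := EuclideanSpace ℝ (Fin 2)

/-- cost of the injection `π` for the translate `B + t` -/
noncomputable def cost {m n : ℕ} (A : Fin m → E2) (B : Fin n → E2) (t : E2) (π : Fin m ↪ Fin n) : ℝ :=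
  ∑ i, ‖A i - (B (π i) + t)‖ ^ 2

/-- `π` is optimal (not necessarily the only one) -/
def IsOpt {m n : ℕ} (A : Fin m → E2) (B : Fin n → E2) (t : E2) (π : Fin m ↪ Fin n) : Prop :=
  ∀ σ : Fin m ↪ Fin n, cost A B t π ≤ cost A B t σ

/-- the set of the frozen statement -/
def SOpt {m n : ℕ} (A : Fin m → E2) (B : Fin n → E2) : Set (Fin m ↪ Fin n) :=
  {π | ∃ t : E2, ∀ σ : Fin m ↪ Fin n, σ ≠ π →
    ∑ i, ‖A i - (B (π i) + t)‖ ^ 2 < ∑ i, ‖A i - (B (σ i) + t)‖ ^ 2}

theorem continuous_cost {m n : ℕ} (t : E2) (π : Fin m ↪ Fin n) :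
    Continuous (fun p : (Fin m → E2) × (Fin n → E2) => cost p.1 p.2 t π) := by
  unfold cost
  fun_prop

theorem dense_ne_of_affine {X : Type*} [NormedAddCommGroup X] [NormedSpace ℝ X] (s : Set X)
    (hs : Dense s) (f : X → ℝ) (c : ℝ)
    (h : ∀ x ∈ s, ∃ u : X, ∃ a : ℝ, a ≠ 0 ∧ ∀ ε : ℝ, f (x + ε • u) = f x + ε * a) :
    Dense {x | f x ≠ c} := by
  rw [dense_iff_closure_eq]
  have : s ⊆ closure {x | f x ≠ c} := by
    intro x hx
    obtain ⟨u, a, ha, hu⟩ := h x hx
    by_cases hc : f x = c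
    · -- the points x + (1/(k+1)) u
      refine mem_closure_of_tendsto (f := fun k : ℕ => x + (1 / ((k : ℝ) + 1)) • u)
        (b := Filter.atTop) ?_ ?_
      · have h1 : Filter.Tendsto (fun k : ℕ => (1 / ((k : ℝ) + 1))) Filter.atTop (nhds 0) :=
          tendsto_one_div_add_atTop_nhds_zero_nat
        have h2 := (h1.smul_const u).const_add x
        simpa using h2
      · refine Filter.Eventually.of_forall fun k => ?_
        show f _ ≠ c
        rw [hu, hc]
        have : (1 / ((k : ℝ) + 1)) * a ≠ 0 := mul_ne_zero (by positivity) ha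
        intro h'
        exact this (by linarith)
    · exact subset_closure hc
  exact Set.eq_univ_of_univ_subset
    (by rw [← hs.closure_eq]; exact closure_minimal this isClosed_closure)

theorem inner_single_left (v : E2) (k : Fin 2) (r : ℝ) :
    inner ℝ (EuclideanSpace.single k r) v = r * v k := by
  simp [EuclideanSpace.inner_single_left]

theorem dense_injB {m n : ℕ} :
    Dense {p : (Fin m → E2) × (Fin n → E2) | Function.Injective p.2} := by
  have key : ∀ q : {q : Fin n × Fin n // q.1 ≠ q.2},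
      Dense {p : (Fin m → E2) × (Fin n → E2) | (p.2 q.1.1 - p.2 q.1.2) 0 ≠ 0} := by
    intro q
    refine dense_ne_of_affine Set.univ dense_univ
      (fun p : (Fin m → E2) × (Fin n → E2) => (p.2 q.1.1 - p.2 q.1.2) 0) 0 ?_
    intro p _
    refine ⟨(0, Pi.single q.1.1 (EuclideanSpace.single 0 1)), 1, one_ne_zero, fun ε => ?_⟩
    have hq : q.1.2 ≠ q.1.1 := fun h => q.2 h.symm
    simp [hq]
    ring
  have hopen : ∀ q : {q : Fin n × Fin n // q.1 ≠ q.2},
      IsOpen {p : (Fin m → E2) × (Fin n → E2) | (p.2 q.1.1 - p.2 q.1.2) 0 ≠ 0} := by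
    intro q
    have hc : Continuous (fun p : (Fin m → E2) × (Fin n → E2) => (p.2 q.1.1 - p.2 q.1.2) 0) := by
      fun_prop
    exact isOpen_ne_fun hc continuous_const
  have hd := dense_iInter_of_isOpen hopen key
  refine hd.mono ?_
  intro p hp
  simp only [Set.mem_iInter, Set.mem_ofPred_eq] at hp ⊢
  intro i j hij
  by_contra hne
  exact hp ⟨(i, j), hne⟩ (by simp [hij])

theorem cost_sub_affine {m n : ℕ} (A U : Fin m → E2) (B : Fin n → E2) (t : E2)
    (π σ : Fin m ↪ Fin n) (ε : ℝ) :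
    cost (A + ε • U) B t π - cost (A + ε • U) B t σ =
      cost A B t π - cost A B t σ + ε * ∑ i, 2 * inner ℝ (U i) (B (σ i) - B (π i)) := by
  unfold cost
  rw [← Finset.sum_sub_distrib, ← Finset.sum_sub_distrib, Finset.mul_sum, ← Finset.sum_add_distrib]
  refine Finset.sum_congr rfl fun i _ => ?_
  have h : ∀ b : E2, ‖(A + ε • U) i - (b + t)‖ ^ 2
      = ‖A i - (b + t)‖ ^ 2 + 2 * ε * inner ℝ (U i) (A i - (b + t)) + ε ^ 2 * ‖U i‖ ^ 2 := by
    intro b
    have h1 : (A + ε • U) i - (b + t) = (A i - (b + t)) + ε • U i := by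
      simp only [Pi.add_apply, Pi.smul_apply]; abel
    rw [h1, norm_add_sq_real, norm_smul, inner_smul_right, real_inner_comm]
    simp only [Real.norm_eq_abs, mul_pow, sq_abs]
    ring
  rw [h, h]
  have h2 : inner ℝ (U i) (B (σ i) - B (π i))
      = inner ℝ (U i) (A i - (B (π i) + t)) - inner ℝ (U i) (A i - (B (σ i) + t)) := by
    rw [← inner_sub_right]; congr 1; abel
  rw [h2]; ring

theorem dense_cost_ne {m n : ℕ} (t : E2) (π σ : Fin m ↪ Fin n) (hne : π ≠ σ) :
    Dense {p : (Fin m → E2) × (Fin n → E2) | cost p.1 p.2 t π - cost p.1 p.2 t σ ≠ 0} := by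
  refine dense_ne_of_affine _ dense_injB
    (fun p : (Fin m → E2) × (Fin n → E2) => cost p.1 p.2 t π - cost p.1 p.2 t σ) 0 ?_
  rintro ⟨A, B⟩ hB
  simp only [Set.mem_ofPred_eq] at hB
  have : ∃ i, π i ≠ σ i := by
    by_contra h
    push Not at h
    exact hne (DFunLike.ext _ _ h)
  obtain ⟨i, hi⟩ := this
  have hv : B (σ i) - B (π i) ≠ 0 := by
    intro h
    exact hi (hB (sub_eq_zero.mp h)).symm
  refine ⟨(Pi.single i (B (σ i) - B (π i)), 0), 2 * inner ℝ (B (σ i) - B (π i)) (B (σ i) - B (π i)),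
    ?_, fun ε => ?_⟩
  · rw [real_inner_self_eq_norm_sq]
    have : 0 < ‖B (σ i) - B (π i)‖ := norm_pos_iff.mpr hv
    positivity
  · have := cost_sub_affine A (Pi.single i (B (σ i) - B (π i))) B t π σ ε
    simp only [Prod.mk_add_mk, Prod.smul_mk, smul_zero, add_zero]
    rw [this]
    congr 2
    rw [Finset.sum_eq_single i]
    · simp
    · intro j _ hj
      simp [hj]
    · simp

theorem uniq {m n : ℕ} (hmn : m ≤ n) (A : Fin m → E2) (B : Fin n → E2) (T : Finset E2)
    (S : E2 → Finset (Fin n))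
    (hS : ∀ t ∈ T, ∀ π : Fin m ↪ Fin n, IsOpt A B t π → Finset.univ.map π = S t)
    (hinj : Set.InjOn S (T : Set E2)) :
    ∃ (A' : Fin m → E2) (B' : Fin n → E2), T.card ≤ (SOpt A' B').ncard := by
  classical
  have : Nonempty (Fin m ↪ Fin n) := ⟨Fin.castLEEmb hmn⟩
  -- the open neighbourhood
  let N : Set ((Fin m → E2) × (Fin n → E2)) :=
    ⋂ q : {q : T × (Fin m ↪ Fin n) × (Fin m ↪ Fin n) //
      cost A B q.1 q.2.1 < cost A B q.1 q.2.2},
      {p | cost p.1 p.2 q.1.1 q.1.2.1 < cost p.1 p.2 q.1.1 q.1.2.2}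
  have hNopen : IsOpen N := by
    refine isOpen_iInter_of_finite fun q => ?_
    exact isOpen_lt (continuous_cost _ _) (continuous_cost _ _)
  have hN : (A, B) ∈ N := by
    simp only [N, Set.mem_iInter, Set.mem_ofPred_eq]
    intro q
    exact q.2
  let G : {q : T × (Fin m ↪ Fin n) × (Fin m ↪ Fin n) // q.2.1 ≠ q.2.2} →
      Set ((Fin m → E2) × (Fin n → E2)) :=
    fun q => {p | cost p.1 p.2 q.1.1 q.1.2.1 - cost p.1 p.2 q.1.1 q.1.2.2 ≠ 0}
  have hGd : Dense (⋂ q, G q) := by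
    refine dense_iInter_of_isOpen (fun q => ?_) (fun q => ?_)
    · have hc : Continuous (fun p : (Fin m → E2) × (Fin n → E2) =>
          cost p.1 p.2 q.1.1 q.1.2.1 - cost p.1 p.2 q.1.1 q.1.2.2) :=
        (continuous_cost _ _).sub (continuous_cost _ _)
      exact isOpen_ne_fun hc continuous_const
    · exact dense_cost_ne _ _ _ q.2
  obtain ⟨⟨A', B'⟩, hpN, hpG⟩ := hGd.inter_open_nonempty N hNopen ⟨(A, B), hN⟩
  simp only [N, Set.mem_iInter, Set.mem_ofPred_eq] at hpN
  simp only [G, Set.mem_iInter, Set.mem_ofPred_eq] at hpG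
  refine ⟨A', B', ?_⟩
  -- the unique optimum at t
  have hex : ∀ t ∈ T, ∃ π : Fin m ↪ Fin n, (∀ σ : Fin m ↪ Fin n, σ ≠ π →
      cost A' B' t π < cost A' B' t σ) ∧ Finset.univ.map π = S t := by
    intro t ht
    obtain ⟨π, -, hπ⟩ := Finset.exists_min_image (Finset.univ : Finset (Fin m ↪ Fin n))
      (fun σ => cost A' B' t σ) Finset.univ_nonempty
    refine ⟨π, ?_, ?_⟩
    · intro σ hσ
      have h1 := hπ σ (Finset.mem_univ _)
      have h2 := hpG ⟨(⟨t, ht⟩, σ, π), hσ⟩
      simp only at h2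
      exact lt_of_le_of_ne h1 fun h => h2 (by rw [h]; ring)
    · apply hS t ht
      intro σ
      by_contra hlt
      push Not at hlt
      have := hpN ⟨(⟨t, ht⟩, σ, π), hlt⟩
      simp only at this
      exact absurd (hπ σ (Finset.mem_univ _)) (not_le.mpr this)
  choose! P hP1 hP2 using hex
  have himg : (T.image P : Finset (Fin m ↪ Fin n)).card = T.card := by
    apply Finset.card_image_of_injOn
    intro t ht t' ht' h
    apply hinj ht ht'
    rw [← hP2 t ht, ← hP2 t' ht', h]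
  rw [← himg, ← Set.ncard_coe_finset]
  apply Set.ncard_le_ncard _ (Set.toFinite _)
  intro π hπ
  simp only [Finset.coe_image, Set.mem_image, Finset.mem_coe] at hπ
  obtain ⟨t, ht, rfl⟩ := hπ
  exact ⟨t, fun σ hσ => hP1 t ht σ hσ⟩

/-- data of the form needed: many translations with different optimal ranges -/
def ManyRanges (m n : ℕ) (k : ℕ) : Prop :=
  ∃ (A : Fin m → E2) (B : Fin n → E2) (T : Finset E2) (S : E2 → Finset (Fin n)),
    (∀ t ∈ T, ∀ π : Fin m ↪ Fin n, IsOpt A B t π → Finset.univ.map π = S t) ∧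
    Set.InjOn S (T : Set E2) ∧ T.card = k

/-- Version with arbitrary finite index types `ι` (agents) and `κ` (items). -/
theorem manyRanges_of_fintype {ι κ : Type*} [Fintype ι] [Fintype κ]
    (a : ι → E2) (b : κ → E2) (T : Finset E2) (S : E2 → Finset κ)
    (hS : ∀ t ∈ T, ∀ π : ι ↪ κ,
      (∀ σ : ι ↪ κ, ∑ i, ‖a i - (b (π i) + t)‖ ^ 2 ≤ ∑ i, ‖a i - (b (σ i) + t)‖ ^ 2) →
        Finset.univ.map π = S t)
    (hinj : Set.InjOn S (T : Set E2)) :
    ManyRanges (Fintype.card ι) (Fintype.card κ) T.card := by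
  classical
  let e := (Fintype.equivFin ι).symm
  let f := (Fintype.equivFin κ).symm
  refine ⟨fun i => a (e i), fun j => b (f j), T, fun t => (S t).map f.symm.toEmbedding, ?_, ?_, rfl⟩
  · intro t ht π hπ
    have key : ∀ σ : Fin (Fintype.card ι) ↪ Fin (Fintype.card κ),
        cost (fun i => a (e i)) (fun j => b (f j)) t σ
          = ∑ i, ‖a i - (b (((e.symm.toEmbedding.trans σ).trans f.toEmbedding) i) + t)‖ ^ 2 := by
      intro σ
      unfold cost
      rw [← Equiv.sum_comp e]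
      refine Finset.sum_congr rfl fun i _ => ?_
      simp
    have h1 := hS t ht ((e.symm.toEmbedding.trans π).trans f.toEmbedding) (by
      intro σ
      have h2 := hπ ((e.toEmbedding.trans σ).trans f.symm.toEmbedding)
      rw [key, key] at h2
      refine h2.trans (le_of_eq ?_)
      refine Finset.sum_congr rfl fun i _ => ?_
      simp)
    show Finset.univ.map π = (S t).map f.symm.toEmbedding
    rw [← h1]
    ext x
    simp only [Finset.mem_map, Finset.mem_univ, true_and, Function.Embedding.trans_apply,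
      Equiv.coe_toEmbedding]
    constructor
    · rintro ⟨i, rfl⟩
      exact ⟨f (π i), ⟨e i, by simp⟩, by simp⟩
    · rintro ⟨y, ⟨i, rfl⟩, rfl⟩
      exact ⟨e.symm i, by simp⟩
  · intro t ht t' ht' h
    exact hinj ht ht' (Finset.map_injective _ h)

/-- The frozen statement S11118 follows from instances with superpolynomially many ranges. -/
theorem not_poly (H : ∀ (C : ℝ) (d : ℕ), ∃ m n k : ℕ, m ≤ n ∧ ManyRanges m n k ∧
      C * ((n : ℝ) + 1) ^ d < k) :
    ¬ (∃ C : ℝ, ∃ d₁ d₂ : ℕ, ∀ m n : ℕ, m ≤ n →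
      ∀ (A : Fin m → EuclideanSpace ℝ (Fin 2)) (B : Fin n → EuclideanSpace ℝ (Fin 2)),
        ((({π : Fin m ↪ Fin n | ∃ t : EuclideanSpace ℝ (Fin 2),
            ∀ σ : Fin m ↪ Fin n, σ ≠ π →
              ∑ i, ‖A i - (B (π i) + t)‖ ^ 2 < ∑ i, ‖A i - (B (σ i) + t)‖ ^ 2}
            : Set (Fin m ↪ Fin n)).ncard : ℕ) : ℝ)
          ≤ C * ((m : ℝ) + 1) ^ d₁ * ((n : ℝ) + 1) ^ d₂) := by
  rintro ⟨C, d₁, d₂, h⟩
  obtain ⟨m, n, k, hmn, ⟨A, B, T, S, hS, hinj, hk⟩, hlt⟩ := H |C| (d₁ + d₂)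
  obtain ⟨A', B', hAB⟩ := uniq hmn A B T S hS hinj
  have h1 := h m n hmn A' B'
  have h2 : (T.card : ℝ) ≤ ((SOpt A' B').ncard : ℝ) := by exact_mod_cast hAB
  have h3 : C * ((m : ℝ) + 1) ^ d₁ * ((n : ℝ) + 1) ^ d₂ ≤ |C| * ((n : ℝ) + 1) ^ (d₁ + d₂) := by
    have hm : ((m : ℝ) + 1) ≤ (n : ℝ) + 1 := by
      have : (m : ℝ) ≤ n := by exact_mod_cast hmn
      linarith
    have hp : ((m : ℝ) + 1) ^ d₁ ≤ ((n : ℝ) + 1) ^ d₁ := pow_le_pow_left₀ (by positivity) hm _
    calc C * ((m : ℝ) + 1) ^ d₁ * ((n : ℝ) + 1) ^ d₂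
        ≤ |C| * ((m : ℝ) + 1) ^ d₁ * ((n : ℝ) + 1) ^ d₂ := by
          gcongr
          exact le_abs_self C
      _ ≤ |C| * ((n : ℝ) + 1) ^ d₁ * ((n : ℝ) + 1) ^ d₂ := by gcongr
      _ = |C| * ((n : ℝ) + 1) ^ (d₁ + d₂) := by rw [pow_add]; ring
  have h4 : ((SOpt A' B').ncard : ℝ) ≤ C * ((m : ℝ) + 1) ^ d₁ * ((n : ℝ) + 1) ^ d₂ := h1
  rw [hk] at h2
  linarith

end H87RN
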